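import Pool.Agent.H937.QS.Stm

open scoped Matrix TensorProduct
open Pool.Agent.H937.QS
universe u
namespace Pool.Agent.H134.QS.P

theorem key {L : Type u} [Field L] (N : Matrix (Fin 4) (Fin 4) L) (hdet : N.det ≠ 0)
    (i j : Fin 3) (q : Fin 4) :
    N q i.succ * N q j.succ = ∑ m, N q m * sc N i j m := by
  have h1 : N *ᵥ (sc N i j) = fun q => N q i.succ * N q j.succ := by
    unfold sc co
    rw [Matrix.mulVec_mulVec, Matrix.mul_nonsing_inv _ (isUnit_iff_ne_zero.mpr hdet),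
      Matrix.one_mulVec]
  have h2 := congrFun h1 q
  simp only [Matrix.mulVec, dotProduct] at h2
  exact h2.symm

theorem t_P : S_P.{u} := by
  intro L _ C N h0 hdet τ hp g h hg hh
  choose c hc hpc using hp
  refine ⟨-(g 0 * h 0) + (g 1 * h 1 * sc N 0 0 0 + (g 1 * h 2 + g 2 * h 1) * sc N 0 1 0
      + (g 1 * h 3 + g 3 * h 1) * sc N 0 2 0 + g 2 * h 2 * sc N 1 1 0
      + (g 2 * h 3 + g 3 * h 2) * sc N 1 2 0 + g 3 * h 3 * sc N 2 2 0)
      - (g 1 * sc N 0 1 2 + g 2 * sc N 0 1 1 + g 3 * sc N 0 2 1) * h 0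
      - (h 1 * sc N 0 1 2 + h 2 * sc N 0 1 1 + h 3 * sc N 0 2 1) * g 0,
    ![g 1 * h 1 * (-c 3 - c 5) + g 2 * h 2 * (-c 12) + g 3 * h 3 * (-c 14)
        + (g 2 * h 3 + g 3 * h 2) * (-c 13),
      g 1 * h 1 * c 1 + (g 1 * h 3 + g 3 * h 1) * c 4 + g 2 * h 2 * (c 7 - c 9)
        + (g 2 * h 3 + g 3 * h 2) * c 8 + g 3 * h 3 * c 11,
      g 1 * h 1 * (-c 0) + (g 1 * h 2 + g 2 * h 1) * (-c 2) + (g 1 * h 3 + g 3 * h 1) * (-c 3)
        + g 2 * h 2 * (-c 6) + (g 2 * h 3 + g 3 * h 2) * (-c 9) + g 3 * h 3 * (c 8 - c 10)],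
    ?_, ?_⟩
  · intro r
    fin_cases r
    · change g 1 * h 1 * (-c 3 - c 5) + g 2 * h 2 * (-c 12) + g 3 * h 3 * (-c 14)
        + (g 2 * h 3 + g 3 * h 2) * (-c 13) ∈ C
      repeat' first
        | exact hg _
        | exact hh _
        | exact hc _
        | apply C.add_mem
        | apply C.sub_mem
        | apply C.neg_mem
        | apply C.mul_mem
    · change g 1 * h 1 * c 1 + (g 1 * h 3 + g 3 * h 1) * c 4 + g 2 * h 2 * (c 7 - c 9)
        + (g 2 * h 3 + g 3 * h 2) * c 8 + g 3 * h 3 * c 11 ∈ C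
      repeat' first
        | exact hg _
        | exact hh _
        | exact hc _
        | apply C.add_mem
        | apply C.sub_mem
        | apply C.neg_mem
        | apply C.mul_mem
    · change g 1 * h 1 * (-c 0) + (g 1 * h 2 + g 2 * h 1) * (-c 2)
        + (g 1 * h 3 + g 3 * h 1) * (-c 3)
        + g 2 * h 2 * (-c 6) + (g 2 * h 3 + g 3 * h 2) * (-c 9) + g 3 * h 3 * (c 8 - c 10) ∈ C
      repeat' first
        | exact hg _
        | exact hh _
        | exact hc _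
        | apply C.add_mem
        | apply C.sub_mem
        | apply C.neg_mem
        | apply C.mul_mem
  · intro q
    have E00 := key N hdet 0 0 q
    have E01 := key N hdet 0 1 q
    have E02 := key N hdet 0 2 q
    have E11 := key N hdet 1 1 q
    have E12 := key N hdet 1 2 q
    have E22 := key N hdet 2 2 q
    have s0 : (Fin.succ 0 : Fin 4) = 1 := rfl
    have s1 : (Fin.succ 1 : Fin 4) = 2 := rfl
    have s2 : (Fin.succ 2 : Fin 4) = 3 := rfl
    simp only [Fin.sum_univ_four, s0, s1, s2, h0 q, one_mul] at E00 E01 E02 E11 E12 E22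
    have P0 : -sc N 0 0 3 = τ * c 0 := hpc 0
    have P1 : sc N 0 0 2 = τ * c 1 := hpc 1
    have P2 : -sc N 0 1 3 = τ * c 2 := hpc 2
    have P3 : sc N 0 1 2 - sc N 0 2 3 = τ * c 3 := hpc 3
    have P4 : sc N 0 2 2 = τ * c 4 := hpc 4
    have P5 : 2 * sc N 0 1 2 - sc N 0 0 1 - (sc N 0 1 2 - sc N 0 2 3) = τ * c 5 := hpc 5
    have P6 : -sc N 1 1 3 = τ * c 6 := hpc 6
    have P7 : sc N 1 1 2 - 2 * sc N 0 1 1 + (sc N 0 1 1 - sc N 1 2 3) = τ * c 7 := hpc 7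
    have P8 : sc N 1 2 2 - sc N 0 2 1 = τ * c 8 := hpc 8
    have P9 : sc N 0 1 1 - sc N 1 2 3 = τ * c 9 := hpc 9
    have P10 : sc N 1 2 2 - sc N 0 2 1 - sc N 2 2 3 + 2 * sc N 0 2 1 = τ * c 10 := hpc 10
    have P11 : sc N 2 2 2 = τ * c 11 := hpc 11
    have P12 : -sc N 1 1 1 = τ * c 12 := hpc 12
    have P13 : -sc N 1 2 1 = τ * c 13 := hpc 13
    have P14 : -sc N 2 2 1 = τ * c 14 := hpc 14
    have hX : (N *ᵥ g) q = g 0 + N q 1 * g 1 + N q 2 * g 2 + N q 3 * g 3 := by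
      simp only [Matrix.mulVec, dotProduct, Fin.sum_univ_four, h0 q, one_mul]
    have hY : (N *ᵥ h) q = h 0 + N q 1 * h 1 + N q 2 * h 2 + N q 3 * h 3 := by
      simp only [Matrix.mulVec, dotProduct, Fin.sum_univ_four, h0 q, one_mul]
    have hng : nn (tL (sc N)) g
        = g 0 + (g 1 * sc N 0 1 2 + g 2 * sc N 0 1 1 + g 3 * sc N 0 2 1) := by
      unfold nn
      rw [Fin.sum_univ_three]
      rfl
    have hnh : nn (tL (sc N)) h
        = h 0 + (h 1 * sc N 0 1 2 + h 2 * sc N 0 1 1 + h 3 * sc N 0 2 1) := by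
      unfold nn
      rw [Fin.sum_univ_three]
      rfl
    rw [hX, hY, hng, hnh, Fin.sum_univ_three, s0, s1, s2]
    simp only [Matrix.cons_val]
    generalize N q 1 = e1 at *
    generalize N q 2 = e2 at *
    generalize N q 3 = e3 at *
    linear_combination g 1 * h 1 * E00 + (g 1 * h 2 + g 2 * h 1) * E01
      + (g 1 * h 3 + g 3 * h 1) * E02 + g 2 * h 2 * E11 + (g 2 * h 3 + g 3 * h 2) * E12
      + g 3 * h 3 * E22
      + (-(g 1 * h 1) * e3) * P0 + (g 1 * h 1 * e2) * P1 + (-(g 1 * h 2 + g 2 * h 1) * e3) * P2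
      + (-(g 1 * h 1) * e1 - (g 1 * h 3 + g 3 * h 1) * e3) * P3
      + ((g 1 * h 3 + g 3 * h 1) * e2) * P4 + (-(g 1 * h 1) * e1) * P5
      + (-(g 2 * h 2) * e3) * P6 + (g 2 * h 2 * e2) * P7
      + ((g 2 * h 3 + g 3 * h 2) * e2 + g 3 * h 3 * e3) * P8
      + (-(g 2 * h 2) * e2 - (g 2 * h 3 + g 3 * h 2) * e3) * P9
      + (-(g 3 * h 3) * e3) * P10 + (g 3 * h 3 * e2) * P11 + (-(g 2 * h 2) * e1) * P12
      + (-(g 2 * h 3 + g 3 * h 2) * e1) * P13 + (-(g 3 * h 3) * e1) * P14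

end Pool.Agent.H134.QS.P
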